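import Mathlib
import Pool.Agent.Helper481.CycG

/-!
# Illumination numbers of cyclic polytopes

The cyclic polytope `C = conv {γ(t_1), …, γ(t_n)}` in `E^d` (`d ≥ 2`, `n ≥ d + 1`).  Its
illumination number is computed from the parameters: it is the greatest length of a chain
`i_1 < i_2 < … < i_m` of indices in which consecutive indices are *linked*, where `i < j` are
linked if for every `(d+2)`-element set `N` of indices in which `i`, `j` are adjacent elements
`w_N(i) + w_N(j) ≤ (1/2) ∑_{k ∈ N} w_N(k)`, with `w_N(k) = ∏_{l ∈ N, l ≠ k} 1 / |t_k - t_l|`.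
It always lies between `d + 1` and `2 d - 1`.
-/

set_option autoImplicit false

open scoped RealInnerProductSpace

namespace Pool.Agent.Results.MP_830f5a_co.CyclicIllumination

/-- The moment curve `γ(x) = (x, x^2, …, x^d)` in `E^d`. -/
noncomputable def momentCurve (d : ℕ) (x : ℝ) : EuclideanSpace ℝ (Fin d) :=
  WithLp.toLp 2 (fun k : Fin d => x ^ ((k : ℕ) + 1))

/-- The cyclic polytope `conv {γ(t_1), …, γ(t_n)}`. -/
noncomputable def cyclicPolytope (d : ℕ) {n : ℕ} (t : Fin n → ℝ) :
    Set (EuclideanSpace ℝ (Fin d)) :=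
  convexHull ℝ (Set.range fun i => momentCurve d (t i))

/-- The vector `v` illuminates the point `q` of `K`: the open half-line `{q + s v : s > 0}` meets
the interior of `K`. -/
def Illuminates {d : ℕ} (K : Set (EuclideanSpace ℝ (Fin d))) (v q : EuclideanSpace ℝ (Fin d)) :
    Prop :=
  ∃ s : ℝ, 0 < s ∧ q + s • v ∈ interior K

/-- `V` is a finite set of unit vectors such that each boundary point of `K` is illuminated by at
least one of them. -/
def IsIlluminating {d : ℕ} (K : Set (EuclideanSpace ℝ (Fin d)))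
    (V : Finset (EuclideanSpace ℝ (Fin d))) : Prop :=
  (∀ v ∈ V, ‖v‖ = 1) ∧ ∀ q ∈ frontier K, ∃ v ∈ V, Illuminates K v q

/-- The illumination number of `K`. -/
noncomputable def illuminationNumber {d : ℕ} (K : Set (EuclideanSpace ℝ (Fin d))) : ℕ :=
  sInf {m | ∃ V : Finset (EuclideanSpace ℝ (Fin d)), V.card = m ∧ IsIlluminating K V}

/-- The weight `w_N(k) = ∏_{l ∈ N, l ≠ k} 1 / |t_k - t_l|`. -/
noncomputable def weight {n : ℕ} (t : Fin n → ℝ) (N : Finset (Fin n)) (k : Fin n) : ℝ :=
  ∏ l ∈ N.erase k, |t k - t l|⁻¹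

/-- The indices `i < j` are linked: for every set `N` of `d + 2` indices which contains `i` and `j`
and no index strictly between them, `w_N(i) + w_N(j) ≤ (1/2) ∑_{k ∈ N} w_N(k)`. -/
def Linked {n : ℕ} (d : ℕ) (t : Fin n → ℝ) (i j : Fin n) : Prop :=
  ∀ N : Finset (Fin n), N.card = d + 2 → i ∈ N → j ∈ N → (∀ k ∈ N, ¬ (i < k ∧ k < j)) →
    weight t N i + weight t N j ≤ (1 / 2) * ∑ k ∈ N, weight t N k

/-- The vertices `γ(t_i)` and `γ(t_j)` are antipodal: they lie in two different parallel supporting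
hyperplanes of the cyclic polytope. -/
def Antipodal {n : ℕ} (d : ℕ) (t : Fin n → ℝ) (i j : Fin n) : Prop :=
  ∃ f : EuclideanSpace ℝ (Fin d), ⟪f, momentCurve d (t i)⟫ < ⟪f, momentCurve d (t j)⟫ ∧
    ∀ k, ⟪f, momentCurve d (t i)⟫ ≤ ⟪f, momentCurve d (t k)⟫ ∧
      ⟪f, momentCurve d (t k)⟫ ≤ ⟪f, momentCurve d (t j)⟫

theorem linked_iff {d n : ℕ} {t : Fin n → ℝ} (ht : StrictMono t) (hn : d + 1 ≤ n) {i j : Fin n}
    (hij : i < j) : Linked d t i j ↔ Antipodal d t i j := by
  constructor
  · intro h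
    exact Cyc481.antipodal_of_linked ht hn hij h
  · intro h
    by_contra hcon
    obtain ⟨v, hv⟩ := Cyc481.exists_illum_interval ht hn hij hcon
    exact Cyc481.not_illum_antipodal h v (hv i le_rfl hij.le) (hv j hij.le le_rfl)

theorem formula {d n : ℕ} {t : Fin n → ℝ} (hd : 2 ≤ d) (hn : d + 1 ≤ n) (ht : StrictMono t) :
    IsLeast {m | ∃ V : Finset (EuclideanSpace ℝ (Fin d)), V.card = m ∧
        IsIlluminating (cyclicPolytope d t) V} (illuminationNumber (cyclicPolytope d t)) ∧
    IsGreatest {m | ∃ l : List (Fin n), l.length = m ∧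
        l.IsChain (fun i j => i < j ∧ Linked d t i j)}
      (illuminationNumber (cyclicPolytope d t)) ∧
    IsGreatest {m | ∃ S : Finset (Fin n), S.card = m ∧
        ∀ i ∈ S, ∀ j ∈ S, i < j → Antipodal d t i j}
      (illuminationNumber (cyclicPolytope d t)) ∧
    d + 1 ≤ illuminationNumber (cyclicPolytope d t) ∧
    illuminationNumber (cyclicPolytope d t) ≤ 2 * d - 1 := by
  obtain ⟨h1, h2, h3, h4⟩ := Cyc481.main ht hd hn
  refine ⟨h1, h2, h3, h4, ?_⟩
  obtain ⟨S, hS, hS2⟩ := h3.1
  calc illuminationNumber (cyclicPolytope d t) = S.card := hS.symm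
    _ ≤ 2 * d - 1 := Cyc481.card_antipodal_le ht hd S hS2

theorem weight_univ {n : ℕ} (t : Fin n → ℝ) (k : Fin n) :
    weight t Finset.univ k = ∏ l, if l = k then 1 else |t k - t l|⁻¹ := by
  classical
  set g : Fin n → ℝ := fun l => if l = k then 1 else |t k - t l|⁻¹ with hg
  have h1 : ∏ l ∈ Finset.univ.erase k, g l = ∏ l, g l :=
    Finset.prod_erase Finset.univ (show g k = 1 by simp [hg])
  rw [← h1]
  unfold weight
  refine Finset.prod_congr rfl fun j hj => ?_
  simp [hg, (Finset.mem_erase.mp hj).1]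

theorem linked_five {t : Fin 5 → ℝ} {i j : Fin 5}
    (h : weight t Finset.univ i + weight t Finset.univ j ≤
      (1 / 2) * ∑ k, weight t Finset.univ k) : Linked 3 t i j := by
  intro N hN _ _ _
  have : N = Finset.univ := by
    rw [← Finset.card_eq_iff_eq_univ, hN]; rfl
  rw [this]; exact h

/-- `t₁ = (0, 1, 2, 3, 4)`. -/
def t₁ : Fin 5 → ℝ := ![0, 1, 2, 3, 4]

/-- `t₂ = (0, 1, 50, 99, 100)`. -/
def t₂ : Fin 5 → ℝ := ![0, 1, 50, 99, 100]

theorem t₁_mono : StrictMono t₁ := by
  rw [Fin.strictMono_iff_lt_succ]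
  intro i
  fin_cases i <;> simp [t₁] <;> norm_num

theorem t₂_mono : StrictMono t₂ := by
  rw [Fin.strictMono_iff_lt_succ]
  intro i
  fin_cases i <;> simp [t₂] <;> norm_num

theorem weights₁ : weight t₁ Finset.univ 0 = 1 / 24 ∧ weight t₁ Finset.univ 1 = 1 / 6 ∧
    weight t₁ Finset.univ 2 = 1 / 4 ∧ weight t₁ Finset.univ 3 = 1 / 6 ∧
    weight t₁ Finset.univ 4 = 1 / 24 := by
  refine ⟨?_, ?_, ?_, ?_, ?_⟩ <;> rw [weight_univ] <;> simp [Fin.prod_univ_five, t₁] <;> norm_num

theorem weights₂ : weight t₂ Finset.univ 0 = 1 / 495000 ∧ weight t₂ Finset.univ 1 = 1 / 475398 ∧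
    weight t₂ Finset.univ 2 = 1 / 6002500 ∧ weight t₂ Finset.univ 3 = 1 / 475398 ∧
    weight t₂ Finset.univ 4 = 1 / 495000 := by
  refine ⟨?_, ?_, ?_, ?_, ?_⟩ <;> rw [weight_univ] <;> simp [Fin.prod_univ_five, t₂] <;> norm_num

theorem illum₁ : illuminationNumber (cyclicPolytope 3 t₁) = 4 := by
  obtain ⟨_, _, h3, h4, h5⟩ := formula (d := 3) (t := t₁) (by norm_num) (by norm_num) t₁_mono
  obtain ⟨S, hS, hS2⟩ := h3.1
  have hne : illuminationNumber (cyclicPolytope 3 t₁) ≠ 5 := by
    intro h
    rw [h] at hS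
    have hu : S = Finset.univ := by
      rw [← Finset.card_eq_iff_eq_univ, hS]; rfl
    have h12 := hS2 1 (by rw [hu]; exact Finset.mem_univ _) 2 (by rw [hu]; exact Finset.mem_univ _)
      (by decide)
    have hl := (linked_iff t₁_mono (by norm_num) (by decide)).mpr h12
    have h6 := hl Finset.univ (by rfl) (Finset.mem_univ _) (Finset.mem_univ _) (by decide)
    obtain ⟨w0, w1, w2, w3, w4⟩ := weights₁
    rw [Fin.sum_univ_five, w0, w1, w2, w3, w4] at h6
    norm_num at h6
  omega

theorem illum₂ : illuminationNumber (cyclicPolytope 3 t₂) = 5 := by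
  obtain ⟨_, h2, _, h4, h5⟩ := formula (d := 3) (t := t₂) (by norm_num) (by norm_num) t₂_mono
  have hge : 5 ≤ illuminationNumber (cyclicPolytope 3 t₂) := by
    apply h2.2
    obtain ⟨w0, w1, w2, w3, w4⟩ := weights₂
    refine ⟨[0, 1, 2, 3, 4], rfl, ?_⟩
    have l01 : Linked 3 t₂ 0 1 := linked_five (by
      rw [Fin.sum_univ_five, w0, w1, w2, w3, w4]; norm_num)
    have l12 : Linked 3 t₂ 1 2 := linked_five (by
      rw [Fin.sum_univ_five, w0, w1, w2, w3, w4]; norm_num)
    have l23 : Linked 3 t₂ 2 3 := linked_five (by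
      rw [Fin.sum_univ_five, w0, w1, w2, w3, w4]; norm_num)
    have l34 : Linked 3 t₂ 3 4 := linked_five (by
      rw [Fin.sum_univ_five, w0, w1, w2, w3, w4]; norm_num)
    simp only [List.isChain_cons_cons, List.isChain_singleton, and_true]
    exact ⟨⟨by decide, l01⟩, ⟨by decide, l12⟩, ⟨by decide, l23⟩, ⟨by decide, l34⟩⟩
  omega

/-- **Illumination numbers of cyclic polytopes.**  For all `d ≥ 2`, `n ≥ d + 1` and
`t_1 < … < t_n`, the illumination number of the cyclic polytope with these parameters is the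
greatest length of a chain of indices with consecutive indices linked; it is also the greatest
number of pairwise antipodal vertices; it is at least `d + 1` and at most `2 d - 1`; and it is not
a function of `d` and `n` alone. -/
theorem result :
    (∀ (d n : ℕ) (t : Fin n → ℝ), 2 ≤ d → d + 1 ≤ n → StrictMono t →
      -- the illumination number is attained
      IsLeast {m | ∃ V : Finset (EuclideanSpace ℝ (Fin d)), V.card = m ∧
          IsIlluminating (cyclicPolytope d t) V} (illuminationNumber (cyclicPolytope d t)) ∧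
      -- the formula in terms of the parameters
      IsGreatest {m | ∃ l : List (Fin n), l.length = m ∧
          l.IsChain (fun i j => i < j ∧ Linked d t i j)}
        (illuminationNumber (cyclicPolytope d t)) ∧
      -- the formula in terms of antipodal vertices
      IsGreatest {m | ∃ S : Finset (Fin n), S.card = m ∧
          ∀ i ∈ S, ∀ j ∈ S, i < j → Antipodal d t i j}
        (illuminationNumber (cyclicPolytope d t)) ∧
      -- linked means antipodal, and linkedness is monotone, so that the chain can be found greedily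
      (∀ i j : Fin n, i < j → (Linked d t i j ↔ Antipodal d t i j)) ∧
      (∀ i' i j j' : Fin n, i' ≤ i → i < j → j ≤ j' → Linked d t i j → Linked d t i' j') ∧
      -- bounds
      d + 1 ≤ illuminationNumber (cyclicPolytope d t) ∧
      illuminationNumber (cyclicPolytope d t) ≤ 2 * d - 1) ∧
    -- the illumination number is not determined by `d` and `n`
    (∃ t t' : Fin 5 → ℝ, StrictMono t ∧ StrictMono t' ∧
      illuminationNumber (cyclicPolytope 3 t) = 4 ∧
      illuminationNumber (cyclicPolytope 3 t') = 5) := by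
  refine ⟨fun d n t hd hn ht => ?_, t₁, t₂, t₁_mono, t₂_mono, illum₁, illum₂⟩
  obtain ⟨h1, h2, h3, h4, h5⟩ := formula hd hn ht
  exact ⟨h1, h2, h3, fun i j hij => linked_iff ht hn hij,
    fun i' i j j' hii hij hjj hl => Cyc481.linked_mono ht hn hii hij hjj hl, h4, h5⟩

end Pool.Agent.Results.MP_830f5a_co.CyclicIllumination
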